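import Pool.Agent.Helper297.SF.Main

/-!
# Stably free non-free modules of rank `d - 2` in every dimension `d ≥ 4`

Let `k` be a field of characteristic two, `n ≥ 3` and `F = ∑_{i<n} t^i x_i^(2^s) ∈ k[t][x_0..x_{n-1}]`.
For `s` large the unimodular row `(x_0, ..., x_{n-1})` over `R = k[t, x_0, ..., x_{n-1}][1/F]`
(a smooth affine variety of dimension `n + 1`) cannot be completed to an invertible matrix,
even over `k(t)[x][1/F]`.  Its kernel is stably free of rank `n - 1` and not free.
-/

set_option autoImplicit false

open MvPolynomial SF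

namespace Pool.Agent.Results.MP_bac99f_ag.AllDimensions

/-- `Spec R` is a smooth affine (irreducible) variety of dimension `d` over the field `k`:
`R` is a finitely generated `k`-algebra, an integral domain, a regular ring, smooth over `k`, of
Krull dimension `d`. -/
structure SmoothAffineVariety (k R : Type) [Field k] [CommRing R] [Algebra k R] (d : ℕ) :
    Prop where
  domain : IsDomain R
  finType : Algebra.FiniteType k R
  regular : IsRegularRing R
  smooth : Algebra.Smooth k R
  dim : ringKrullDim R = d

/-- `P` is a finitely generated projective `R`-module of constant rank `r`. -/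
def ProjectiveOfRank (R P : Type) [CommRing R] [AddCommGroup P] [Module R P] (r : ℕ) : Prop :=
  Module.Finite R P ∧ Module.Projective R P ∧
    ∀ p : PrimeSpectrum R, Module.rankAtStalk P p = r

/-- `P` is stably free: `P ⊕ R^m ≅ R^l` for some `m`, `l`. -/
def StablyFree (R P : Type) [CommRing R] [AddCommGroup P] [Module R P] : Prop :=
  ∃ m l : ℕ, Nonempty ((P × (Fin m → R)) ≃ₗ[R] (Fin l → R))

/-- There are a smooth affine `k`-variety `Spec R` of dimension `d` and a projective `R`-module of
rank `d - 2` that is stably free and not free. -/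
def RealisedOver (k : Type) [Field k] (d : ℕ) : Prop :=
  ∃ (R : Type) (_ : CommRing R) (_ : Algebra k R), SmoothAffineVariety k R d ∧
    ∃ (P : Type) (_ : AddCommGroup P) (_ : Module R P),
      ProjectiveOfRank R P (d - 2) ∧ StablyFree R P ∧ ¬ Module.Free R P

/-- The form `F = ∑ t^i x_i^(2^s)` over `k[t]`. -/
noncomputable def F0 (k : Type) [Field k] (n s : ℕ) : MvPolynomial (Fin n) (Polynomial k) :=
  ∑ i : Fin n, C (Polynomial.X ^ (i : ℕ)) * X i ^ (2 ^ s)

theorem F0_map (k : Type) [Field k] (n s : ℕ) :
    MvPolynomial.map (algebraMap (Polynomial k) (FractionRing (Polynomial k))) (F0 k n s) =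
      Fp (FractionRing (Polynomial k)) n s (algebraMap (Polynomial k) _ Polynomial.X) := by
  simp [F0, Fp, map_sum, map_mul, map_pow]

theorem F0_ne_zero (k : Type) [Field k] (n s : ℕ) (hn : 0 < n) : F0 k n s ≠ 0 := by
  intro h
  have := F0_map k n s
  rw [h, map_zero] at this
  exact Fp_ne_zero _ n s _ hn this.symm

theorem realisedOver (k : Type) [Field k] [IsAlgClosed k] [CharP k 2] (d : ℕ) (hd : 4 ≤ d) :
    RealisedOver k d := by
  obtain ⟨m, rfl⟩ : ∃ m, d = m + 2 := ⟨d - 2, by omega⟩
  obtain ⟨s, hs⟩ := not_completable (m + 1) (by omega)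
  have hF := F0_ne_zero k (m + 1) s (by omega)
  set F := F0 k (m + 1) s with hFdef
  let A := Localization.Away F
  have hdom : IsDomain A :=
    IsLocalization.isDomain_localization (powers_le_nonZeroDivisors_of_noZeroDivisors hF)
  let x : Fin (m + 1) → A := fun i => algebraMap (MvPolynomial (Fin (m + 1)) (Polynomial k)) A (X i)
  let w : Fin (m + 1) → A := fun i =>
    algebraMap (MvPolynomial (Fin (m + 1)) (Polynomial k)) A
      (C (Polynomial.X ^ (i : ℕ)) * X i ^ (2 ^ s - 1)) * IsLocalization.Away.invSelf F
  have hxw : ∑ i, w i * x i = 1 := by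
    have h1 : ∀ i, w i * x i = algebraMap (MvPolynomial (Fin (m + 1)) (Polynomial k)) A
        (C (Polynomial.X ^ (i : ℕ)) * X i ^ (2 ^ s)) * IsLocalization.Away.invSelf F := by
      intro i
      have h2 : (X i : MvPolynomial (Fin (m + 1)) (Polynomial k)) ^ (2 ^ s)
          = X i ^ (2 ^ s - 1) * X i := by
        rw [← pow_succ]
        congr 1
        have : 0 < 2 ^ s := by positivity
        omega
      simp only [w, x]
      rw [h2, ← mul_assoc, map_mul _ (_ * _) (X i)]
      ring
    rw [Finset.sum_congr rfl (fun i _ => h1 i), ← Finset.sum_mul, ← map_sum]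
    exact IsLocalization.Away.mul_invSelf (S := A) F
  have hsm := smooth_away k (m + 1) F
  refine ⟨A, inferInstance, inferInstance, ⟨hdom, hsm.1, regular_away k (m + 1) F, hsm.2, ?_⟩, ?_⟩
  · have := krull_away' k (fun n F hF => krull_away k n F hF) (m + 1) F hF
    exact_mod_cast this
  · have hk := ker_row m x w hxw
    refine ⟨LinearMap.ker (Fintype.linearCombination A x), inferInstance, inferInstance,
      ⟨hk.1, hk.2.1, ?_⟩, ⟨1, m + 1, hk.2.2.2⟩, ?_⟩
    · intro p
      simpa using hk.2.2.1 p
    · intro hfree
      haveI := hk.1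
      haveI := hfree
      have hrank : Module.finrank A (LinearMap.ker (Fintype.linearCombination A x)) = m := by
        obtain ⟨p⟩ : Nonempty (PrimeSpectrum A) := inferInstance
        have h1 := hk.2.2.1 p
        rw [Module.rankAtStalk_eq_finrank_of_free] at h1
        exact h1
      let e : LinearMap.ker (Fintype.linearCombination A x) ≃ₗ[A] (Fin m → A) :=
        (Module.finBasisOfFinrankEq A _ hrank).equivFun
      obtain ⟨N, N', h1, h2, h3⟩ := complete_of_free m x w hxw e
      obtain ⟨M, M', b, hM, hrow⟩ := clear_denoms F hF m X N N' h1 h3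
      let φ := MvPolynomial.map (σ := Fin (m + 1))
        (algebraMap (Polynomial k) (FractionRing (Polynomial k)))
      haveI : CharP (FractionRing (Polynomial k)) 2 :=
        charP_of_injective_algebraMap (algebraMap k (FractionRing (Polynomial k))).injective 2
      refine hs (FractionRing (Polynomial k)) (algebraMap (Polynomial k) _ Polynomial.X)
        (X_not_sq k) (M.map φ) (M'.map φ) b ?_ ?_
      · have h4 := congrArg (fun Q => Q.map φ) hM
        simp only [Matrix.map_mul] at h4
        rw [h4]
        have h5 : φ F = Fp (FractionRing (Polynomial k)) (m + 1) s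
          (algebraMap (Polynomial k) _ Polynomial.X) := F0_map k (m + 1) s
        rw [← h5]
        ext i j
        by_cases hij : i = j
        · subst hij
          simp
        · simp [Matrix.one_apply_ne hij]
      · intro i
        have := hrow i
        change φ (M 0 i) = X i
        rw [this]
        simp [φ]

/-- **Every `d ≥ 4` is realised.**  For every `d ≥ 4` there are an algebraically closed field `k`, a
smooth affine `k`-variety `Spec R` of dimension `d` and a projective `R`-module of rank `d - 2` that
is stably free and not free; one may take for `k` any algebraically closed field of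
characteristic two. -/
theorem result :
    (∀ d : ℕ, 4 ≤ d → ∃ (k : Type) (_ : Field k), IsAlgClosed k ∧ RealisedOver k d) ∧
    (∀ (k : Type) [Field k] [IsAlgClosed k] [CharP k 2] (d : ℕ), 4 ≤ d → RealisedOver k d) := by
  refine ⟨fun d hd => ?_, fun k _ _ _ d hd => realisedOver k d hd⟩
  haveI : CharP (AlgebraicClosure (ZMod 2)) 2 :=
    charP_of_injective_algebraMap (algebraMap (ZMod 2) (AlgebraicClosure (ZMod 2))).injective 2
  exact ⟨AlgebraicClosure (ZMod 2), inferInstance, inferInstance,
    realisedOver (AlgebraicClosure (ZMod 2)) d hd⟩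

end Pool.Agent.Results.MP_bac99f_ag.AllDimensions
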